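import Pool.Agent.H.MP_e0d2b2_an.Upper
import Pool.Agent.H.MP_e0d2b2_an.Lower

namespace Pool.Agent.Results.MP_e0d2b2_an.BestConst

universe u

/-- `C` is admissible: the summed power bound holds with constant `C` for every operator on a
nonzero complex Banach space with spectrum in the open disc and resolvent bound `M`. -/
def Admissible (C : ℝ) : Prop :=
  ∀ (X : Type u) [NormedAddCommGroup X] [NormedSpace ℂ X] [CompleteSpace X] [Nontrivial X]
    (T : X →L[ℂ] X) (M : ℝ), spectrum ℂ T ⊆ Metric.ball 0 1 →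
    (∀ z : ℂ, 1 ≤ ‖z‖ → ‖resolvent T z‖ ≤ M) →
    Summable (fun j : ℕ => ‖T ^ (j + 1)‖) ∧ ∑' j : ℕ, ‖T ^ (j + 1)‖ ≤ C * M * (M - 1)

open Pool.Agent.H.MP_e0d2b2_an in
theorem result : IsLeast {C : ℝ | 0 < C ∧ Admissible.{u} C} (Real.exp 1) := by
  refine ⟨⟨Real.exp_pos 1, fun X _ _ _ _ T M hs hM => upper T M hs hM⟩, ?_⟩
  rintro C ⟨C0, hC⟩
  have e0 := Real.exp_pos 1
  have key : ∀ M : ℝ, 1 < M → Real.exp 1 ≤ C * M ^ 2 := by
    intro M hM
    obtain ⟨X, _, _, _, _, T, hs, hr, hT⟩ := lower.{u} M hM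
    obtain ⟨h1, h2⟩ := hC X T M hs hr
    have h3 : ‖T ^ (0 + 1)‖ ≤ ∑' j : ℕ, ‖T ^ (j + 1)‖ := h1.le_tsum 0 fun _ _ => norm_nonneg _
    have l0 := Real.log_pos hM
    rw [zero_add, pow_one] at h3
    rw [← div_eq_mul_inv, le_div_iff₀ (by positivity), one_mul] at hT
    have M0 : 0 < M := by linarith
    have h4 : 1 - M⁻¹ ≤ Real.log M := Real.one_sub_inv_le_log_of_pos M0
    have h5 : Real.exp 1 * (1 - M⁻¹) ≤ C * M * (M - 1) := by
      have := mul_le_mul_of_nonneg_left h4 e0.le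
      linarith
    have h6 : Real.exp 1 * (M - 1) ≤ C * M ^ 2 * (M - 1) := by
      have := mul_le_mul_of_nonneg_left h5 M0.le
      have e : M * (Real.exp 1 * (1 - M⁻¹)) = Real.exp 1 * (M - 1) := by field_simp
      rw [e] at this
      linarith
    exact le_of_mul_le_mul_right h6 (by linarith)
  have hc : ContinuousWithinAt (fun M : ℝ => C * M ^ 2) (Set.Ioi 1) 1 := by fun_prop
  have := ge_of_tendsto hc.tendsto (Filter.eventually_of_mem self_mem_nhdsWithin key)
  simpa using this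

end Pool.Agent.Results.MP_e0d2b2_an.BestConst
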